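import Pool.Agent.H41.De4

set_option autoImplicit false
open Pool.Agent.H41.Dp

theorem Pool.Agent.Results.MP_dd35e7_an.No.result :
    ∀ p : ℝ, 2 < p → ∃ f g : ℂ → ℂ, (∀ z ∈ Metric.ball (0 : ℂ) 1, Complex.exp (g z) = f z) ∧
      InD p f ∧ InD p g ∧ (∀ z ∈ Metric.ball (0 : ℂ) 1, ‖f z‖ ≤ 1) ∧ ¬ Cyclic p f := by
  intro p hp
  obtain ⟨g, h1, h2, h3, h4⟩ := no hp
  exact ⟨fun z => Complex.exp (g z), g, fun _ _ => rfl, h2, h1, h3, h4⟩
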